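import Pool.Agent.H15.FamMain

/-! Eight elements in a subspace of dimension four. -/

set_option linter.unusedSectionVars false

open Module Submodule H15

namespace H15.FO

variable {ι : Type*} [Fintype ι] {E : Type*} [AddCommGroup E] [Module ℝ E]
  [FiniteDimensional ℝ E] {v : ι → E}

/-- eight points in rank 4 with lines of at most three elements: the maximal frame has rank at least
three. -/
theorem eight_rank (hv : Pts v) (hE : finrank ℝ E = 4) (hcard : 8 ≤ Fintype.card ι)
    (hn2 : ∀ G : Submodule ℝ E, finrank ℝ G ≤ 2 → {i | v i ∈ G}.ncard ≤ 3)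
    {m : ℕ} {A B : Set ι} (hF : MaxFrame v m A B) : 3 ≤ m := by
  classical
  obtain ⟨hc, ⟨h, hpos⟩, hnp⟩ := hv
  haveI : Nonempty ι := by rw [← Fintype.card_pos_iff]; omega
  by_contra hcon
  push Not at hcon
  have h1 := ncard_L hF
  have h2 := hF.compl
  have h3 := hn2 (LL v A B) (by rw [hF.rank]; omega)
  rcases Nat.lt_or_ge m 2 with hm | hm
  · have h4 := hnp (LL v A B) (by rw [hF.rank]; omega)
    omega
  · obtain ⟨K, hK, hKW, -⟩ := hF.one_exit h hpos (by omega) hm
    have h5 := hnp K (by omega)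
    have h6 := compl_subset_le hF hKW
    omega

/-- a subspace `L` of dimension 4 with at least eight elements: the quotient has rank at most one. -/
theorem bdd_quot_of_eight (hpos : ∃ h : E →ₗ[ℝ] ℝ, ∀ i, 0 < h (v i)) (hb : Bdd v 4)
    (hnp : ∀ G : Submodule ℝ E, finrank ℝ G ≤ 1 → {i | v i ∈ G}.ncard ≤ 1)
    (hn2 : ∀ G : Submodule ℝ E, finrank ℝ G ≤ 2 → {i | v i ∈ G}.ncard ≤ 3)
    (hn3 : ∀ G : Submodule ℝ E, finrank ℝ G ≤ 3 → {i | v i ∈ G}.ncard ≤ 5)
    {L : Submodule ℝ E} (hL : finrank ℝ L = 4) (h8 : 8 ≤ {i | v i ∈ L}.ncard) :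
    Bdd (L.mkQ ∘ v) 1 := by
  classical
  obtain ⟨h, hpos⟩ := hpos
  let J : Set ι := {i | v i ∈ L}
  have hJ : ∀ i ∈ J, v i ∈ L := fun i hi => hi
  have hcard : Fintype.card J = J.ncard := by
    rw [← Nat.card_eq_fintype_card]; rfl
  have h8' : 8 ≤ J.ncard := h8
  haveI hne : Nonempty J := by
    rw [← Fintype.card_pos_iff, hcard]
    omega
  have hcos : Cosimple (sub v L J hJ) := by
    intro i j
    by_contra hne
    have h1 := Submodule.finrank_lt (lt_top_iff_ne_top.2 hne).ne
    have h2 : {l | sub v L J hJ l ∈ sp (sub v L J hJ) ({i, j}ᶜ)}.ncard ≤ 5 :=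
      sub_bound hn3 _ (by omega)
    have h3 : ({i, j}ᶜ : Set J) ⊆ {l | sub v L J hJ l ∈ sp (sub v L J hJ) ({i, j}ᶜ)} :=
      fun l hl => mem_sp hl
    have h4 := Set.ncard_le_ncard h3 (Set.toFinite _)
    have h5 := Set.ncard_add_ncard_compl ({i, j} : Set J)
    rw [Nat.card_eq_fintype_card, hcard] at h5
    have h6 : ({i, j} : Set J).ncard ≤ 2 := by
      have := Set.ncard_insert_le i ({j} : Set J)
      rwa [Set.ncard_singleton] at this
    omega
  have hpts : Pts (sub v L J hJ) :=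
    ⟨hcos, ⟨h.comp L.subtype, fun i => hpos i⟩, fun G' hG' => sub_bound hnp G' hG'⟩
  obtain ⟨m, A, B, hF⟩ := exists_maxFrame hcos
  have hm := eight_rank hpts hL (by rw [hcard]; exact h8') (fun G' hG' => sub_bound hn2 G' hG') hF
  have hS := sub_svec hF.svec
  have htop : sp v (Subtype.val '' A ∪ Subtype.val '' B) = L := by
    rw [← Set.image_union, sub_sp (hJ := hJ), hF.top, Submodule.map_top, Submodule.range_subtype]
  have hrank : finrank ℝ (LL v (Subtype.val '' A) (Subtype.val '' B)) = m := by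
    unfold LL
    rw [sub_sp (hJ := hJ), sub_sp (hJ := hJ), ← Submodule.map_inf _ Subtype.val_injective,
      ← (Submodule.equivMapOfInjective L.subtype Subtype.val_injective _).finrank_eq]
    exact hF.rank
  suffices H : ∀ L' : Submodule ℝ E, L' = sp v (Subtype.val '' A ∪ Subtype.val '' B) →
      Bdd (L'.mkQ ∘ v) 1 from H L htop.symm
  rintro _ rfl X' Y' hXY'
  have := hb.quot hS hXY'
  omega

end H15.FO
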